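import Mathlib
import Pool.Agent.X72.CV.Two

set_option autoImplicit false

/-!
# No finite set of primitive elements of the free group of rank two is `CV_2`-rigid

For every finite set `S` of primitive elements of `F_2` there are two different points of `CV_2`
(trees with co-volume 1) with the same translation lengths on `S`.

Proof: let `τ` be the automorphism `a ↦ a, b ↦ a b`. For every primitive element `s` and all large `n`
the element `τⁿ(s)` is conjugate to a positive word or to the inverse of a positive word (induction
on the number of Nielsen moves), so that with `θ = τⁿ` all elements of `θ(S)` are, up to inversion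
and conjugation, positive words in `a` and `a b`. The theta graph with edges `1/4, 1/4, 1/2` and
the barbell graph with loops `1/2, 1/4` and bridge `1/4` have, with suitable markings, the same lengths
of all positive words in `a` and `a b` (in which `b` is isolated), but not of `b⁻¹ a`.
-/

namespace Pool.Agent.Results.MP_9fd1ce_al.NoPrimitiveRigidSet

open Pool.Agent.H472R3 Pool.Agent.X72.CV

/-- `g` is primitive: it belongs to some free basis of `F_2`. -/
def Primitive (g : FreeGroup (Fin 2)) : Prop :=
  ∃ b : FreeGroupBasis (Fin 2) (FreeGroup (Fin 2)), g ∈ Set.range b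

/-- `A` represents a point of `CV_2`: a free, minimal, isometric action of `F_2` with discrete
orbits on an R-tree, whose quotient is a finite metric graph of total length 1. -/
def InCV2 (A : FTree 2) : Prop := A.InCV ∧ HasCovolume A 1

/-- `S` is `CV_2`-rigid: points of `CV_2` with the same translation lengths on `S` are equal. -/
def CVRigid (S : Set (FreeGroup (Fin 2))) : Prop :=
  ∀ A B : FTree 2, InCV2 A → InCV2 B → (∀ g ∈ S, A.len g = B.len g) → A.Same B

/-- Let `S` be a finite set of primitive elements of `F_2`. There are two points of `CV_2` with the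
same translation lengths on `S` and different translation lengths of some element; so they are
different, and `S` is not `CV_2`-rigid. -/
theorem result (S : Set (FreeGroup (Fin 2))) (hS : S.Finite) (hp : ∀ g ∈ S, Primitive g) :
    (∃ A B : FTree 2, InCV2 A ∧ InCV2 B ∧ (∀ g ∈ S, A.len g = B.len g) ∧
      (∃ g, A.len g ≠ B.len g) ∧ ¬ A.Same B) ∧ ¬ CVRigid S := by
  have h1 : ∀ s ∈ S, ∃ (φ : MulAut F2) (i : Fin 2), φ (FreeGroup.of i) = s := by
    intro s hs
    obtain ⟨b, i, rfl⟩ := hp s hs
    exact ⟨b.repr.symm, i, rfl⟩
  obtain ⟨θ, hθ⟩ := exists_pair S hS h1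
  have h2 : ¬ (TA θ).Same (TB θ) := fun h => differ θ (by rw [FTree.Same.len_eq h])
  refine ⟨⟨TA θ, TB θ, ⟨TA_inCV θ, TA_cov θ⟩, ⟨TB_inCV θ, TB_cov θ⟩, hθ, ⟨_, differ θ⟩, h2⟩, ?_⟩
  intro h
  exact h2 (h _ _ ⟨TA_inCV θ, TA_cov θ⟩ ⟨TB_inCV θ, TB_cov θ⟩ hθ)

end Pool.Agent.Results.MP_9fd1ce_al.NoPrimitiveRigidSet
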